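import Pool.Agent.Run7.h700.PC.FourVan

set_option autoImplicit false

open Polynomial Pool.Agent.W432.PC Pool.Agent.Y227.SS Pool.Agent.TH571.PCV Pool.Agent.R340.SY
open Pool.Agent.R340.CF Pool.Agent.N858.CV Run7.h850.PC Pool.Agent.Run7.h700.PC

/-!
# Vanishing `p`-curvature: rank two, four points with non-integral differences of exponents, arbitrary denominators

(The inequality is a theorem of helper850; this file is its form for this question.)

For a rational number `q` with denominator `n` let `gam q` be the product of the numbers `-p` for the
primes `p` dividing `n`, divided by `n ^ 2`. Let `y' = A y`, `A = ∑ j, A j / (z - α j)`, be a system of rank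
two over a domain `R` of finite type over `ℤ`, with any number of singular points, with rational
exponents, irreducible over every extension of the field of constants, with exactly four singular
points with non-integral differences `θ i` of the exponents. Let `s κ` be the sixteen sums of
exponents, one exponent for each singular point (the choice at the points with integral differences
is not important modulo one), and assume that none of them is an integer (no resonance). Let `A_0 = 1`,
`A_{m+1} = A_m' + A_m A`.

We prove an explicit inequality between the denominators of these twenty numbers: if the entries of `A_p` are in `p R[z, 1 / F]` for almost all primes `p` (the `p`-curvature vanishes for almost all primes), then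

`∑ gam (s κ) ≥ 4 ∑ gam (θ i) + 4 / 15`,

and in general the proportion of the residue classes modulo a common denominator of the exponents for
which some entry of `A_p` is not in `p R[z, 1 / F]` for all large primes is at least `3 / 74` times the difference between the
right side and the left side. There is no restriction on the denominators, small and even ones are
allowed. So for all these systems for which the inequality is violated, for instance if all twenty
denominators are at least `121`, the hypothesis of the question fails.

Proof. If the entries of `A_p` are in `p R[z, 1 / F]` for infinitely many primes `p` with `a p = -1`, the `p`-curvature vanishes at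
closed points of characteristic `p`, and the numbers `a λ` (`λ` the exponents) are the weights of a stable
parabolic bundle of degree zero (starting results). In terms of the differences this says that a point of
`ℝ⁴` has `l¹`-distance larger than one from the integral points of one parity. For such points the
quadratic function `K = 4 ∑ ⟨θ i⟩ - ∑ ⟨s κ⟩`, `⟨x⟩ = {x} (1 - {x})`, which belongs to the root system `D₄`,
is at least four times the distance of the nearest of the twelve numbers `θ i`, `± s κ` from the
integers. The mean of `K` over the conjugates is `(∑ gam (s κ) - 4 ∑ gam (θ i)) / 6`. The mean of the
minimum of the distances is at least `t` minus the sum of the means of the tent functions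
`max (0, t - ‖x‖)` of the twelve numbers; for `t = 1 / 36` each of these means is at most `1 / 720`, for
all denominators larger than one (with equality for the denominators `60` and `90`).
-/

namespace Pool.Agent.Results.MP_815ef6_nt.FourPointInequality

universe u

/-- Let `A = ∑ j, A j / (z - α j)`, `j = 1, …, n`, be a matrix of rank two over a domain `R` of
characteristic zero and of finite type over `ℤ`, with `α i - α j` invertible for `i ≠ j`, such that the
system `y' = A y` is irreducible over every field containing `R`, with rational exponents: the
eigenvalues `lam j l` of `A j` and `phi l` of `∑ j, A j`. The points are the finite ones, `some j`, and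
infinity, `none`. Let `P i` be four of them, such that the differences `diff lam phi x` of the two
exponents at `x` are integers for all the other points (`rest P`) but not for the `P i`. Assume that
none of the sixteen sums `total lam phi P κ` of the exponents number `κ i` at the points `P i` and of the
exponents number `0` at the other points (exponents at infinity: `- phi l`) is an integer. Let
`excS lam phi P` be the sum of `gam` over the sixteen sums minus four times the sum of `gam` over the
four differences.

(1) For every common denominator `N` of the exponents there are at least
`3 / 74 * (4 / 15 - excS lam phi P) * φ(N)` residue classes modulo `N`, prime to `N`, such that for every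
nonzero polynomial `F` in `R[z]` and all large primes `p` in these classes some entry of `A_p` is not in
`p R[z, 1 / F]` (`NoVanishClasses`).

(2) If `excS lam phi P < 4 / 15`, or if the denominators of the four differences and of the sixteen
sums are all at least `121`, or if these denominators have no prime factors below `7` and none of the
four denominators of the differences is a prime number below `277`, then `excS lam phi P < 4 / 15` and
the `p`-curvature does not vanish for almost all primes (`VanishesAlmost`). -/
theorem result {R : Type u} [CommRing R] [IsDomain R] [CharZero R] [Algebra.FiniteType ℤ R] {n : ℕ}
    (α : Fin n → R) (hα : ∀ i j, i ≠ j → IsUnit (α i - α j))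
    (A : Fin n → Matrix (Fin 2) (Fin 2) R) (lam : Fin n → Fin 2 → ℚ) (phi : Fin 2 → ℚ)
    (hlam : ∀ j, HasExponents (A j) (lam j)) (hphi : HasExponents (∑ j, A j) phi)
    (hirr : AbsIrreducible α A) (P : Fin 4 → Option (Fin n)) (hP : Function.Injective P)
    (hint : ∀ x ∈ rest P, (diff lam phi x).den = 1) (hθ : ∀ i, (diff lam phi (P i)).den ≠ 1)
    (hs : ∀ κ, (total lam phi P κ).den ≠ 1) :
    (∀ N : ℕ, 0 < N → (∀ j l, ∃ m : ℤ, (N : ℚ) * lam j l = m) →
      (∀ l, ∃ m : ℤ, (N : ℚ) * phi l = m) →
      NoVanishClasses α A N (3 / 74 * (4 / 15 - ((excS lam phi P : ℚ) : ℝ)))) ∧
    (excS lam phi P < 4 / 15 ∨
      ((∀ κ, 121 ≤ (total lam phi P κ).den) ∧ ∀ i, 121 ≤ (diff lam phi (P i)).den) ∨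
      ((∀ κ, Rough7 (total lam phi P κ)) ∧ (∀ i, Rough7 (diff lam phi (P i))) ∧
        ∀ i, (diff lam phi (P i)).den.Prime → 277 ≤ (diff lam phi (P i)).den) →
      excS lam phi P < 4 / 15 ∧ ¬ VanishesAlmost α A) := by
  have h := four_points α hα A lam phi hlam hphi hirr P hP hint hθ hs
  exact ⟨fun N hN h1 h2 => (h.1 N hN h1 h2).1, fun h3 => ⟨(h.2 h3).1, (h.2 h3).2.1⟩⟩

end Pool.Agent.Results.MP_815ef6_nt.FourPointInequality
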