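import Pool.Agent.Run7.h700.PC.VanCan

set_option autoImplicit false

open Finset Polynomial Pool.Agent.W432.TC Pool.Agent.W432.PC
open Pool.Agent.Y227.SS Pool.Agent.R340.SY Pool.Agent.Run7.h700.PC

/-!
# Vanishing `p`-curvature: large primes can be removed from the denominators of the exponents

Let `y' = A y`, `A = ∑ j, A j / (z - α j)`, be any Fuchsian system with simple poles, of any rank `r`
(reducible or not), with rational exponents, any number of singular points and arbitrary accessory
parameters, over a domain `R` of finite type over `ℤ`, and let `A_0 = 1`, `A_{m+1} = A_m' + A_m A`. Let `S` be a set of primes greater than a bound which depends only on the rank and on the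
number of singular points, and write the exponents as `e = e' + e''`, where the denominators of the `e'`
are composed of primes in `S` and those of the `e''` of other primes (which may be large too). It is shown:
either for all large primes `p` in a positive proportion of the residue classes modulo every common denominator of
the exponents some entry of `A_p` is not in `p R[z, 1 / F]`, for every nonzero polynomial `F`; so the
hypothesis of the question fails and its implication holds; or all the conjugates of `e''` are the weights of semistable parabolic bundles, as if
they were the exponents of a system with vanishing `p`-curvatures, and if at all the singular points but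
two the differences of the exponents have denominators composed of primes in `S`, the exponents `e''` at
the two other points are inverse to each other, with multiplicities, up to a shift.

Proof. If the entries of `A_p` are in `p R[z, 1 / F]`, the `p`-curvature vanishes at all closed points of
characteristic `p` of an open set (starting results). If this happens too often, all the conjugates `a e` are the weights of semistable
parabolic bundles of parabolic degree zero (a starting result). The set of all torsion points all whose
conjugates are weights of semistable bundles is covered by finitely many torsion cosets which consist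
of weights of semistable bundles. If the primes in `S` do not divide the denominators of the rational
points of these cosets, then the coset which contains `e` contains `e''` as well. The last statement
follows from the inequalities for line subbundles.
-/

namespace Pool.Agent.Results.MP_815ef6_nt.LargePrimesRemoved

universe u

/-- For every number `n` of finite singular points and every rank `r` there are an `ε > 0` and a number
`B` with the following property. Let `A = ∑ j, A j / (z - α j)` be a system of rank `r` over a domain
`R` of characteristic zero and of finite type over `ℤ`, with `α i - α j` invertible for `i ≠ j` and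
with rational exponents `e x l = expo lam phi x l` at the `n + 1` points `x` (the eigenvalues `lam j l`
of `A j` at `some j`, that is `α j`, and the negatives of the eigenvalues `phi l` of `∑ j, A j` at `none`,
that is infinity). Nothing is assumed on irreducibility or on the accessory parameters. Let `S` be a set of primes greater than `B` and let
`lam = lam' + lam''`, `phi = phi' + phi''`, where the denominators of the `lam' j l` and `phi' l` are
composed of primes in `S` and those of the `lam'' j l` and `phi'' l` of other primes; this gives
`e = e' + e''`. Then one of the following holds.

(1) `VanishExcluded`: for every common denominator `N` of the exponents there is a set of at least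
`ε φ(N)` residue classes modulo `N` such that for every nonzero polynomial `F` in `R[z]` and all large primes
`p` in these classes some entry of `A_p` is not in `p R[z, 1 / F]`; and the `p`-curvature does not vanish for
almost all primes.

(2) For every common denominator `M` of the `e''` and every `a` prime to `M` the numbers `a e''` are the
weights of a semistable parabolic bundle of parabolic degree zero on the projective line over `ℂ`; and if
`z₁ ≠ z₂` and the differences of the exponents at all the other points have denominators composed of
primes in `S`, then for every choice of an index `κ x` at the other points the numbers `e'' z₁ l` and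
`-e'' z₂ l - ∑ e'' x (κ x)` are the same modulo the integers, with multiplicities. -/
theorem result (n r : ℕ) : ∃ (ε : ℝ) (B : ℕ), 0 < ε ∧
    ∀ (R : Type u) [CommRing R] [IsDomain R] [CharZero R] [Algebra.FiniteType ℤ R]
    (α : Fin n → R) (A : Fin n → Matrix (Fin r) (Fin r) R)
    (lam : Fin n → Fin r → ℚ) (phi : Fin r → ℚ),
    (∀ i j, i ≠ j → IsUnit (α i - α j)) →
    (∀ j, HasExponents (A j) (lam j)) → HasExponents (∑ j, A j) phi →
    ∀ S : Set ℕ, (∀ p ∈ S, B < p) → ∀ (lam' lam'' : Fin n → Fin r → ℚ) (phi' phi'' : Fin r → ℚ),
    (∀ j l, lam j l = lam' j l + lam'' j l) → (∀ l, phi l = phi' l + phi'' l) →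
    (∀ j l, DenIn S (lam' j l)) → (∀ l, DenIn S (phi' l)) →
    (∀ j l, DenOut S (lam'' j l)) → (∀ l, DenOut S (phi'' l)) →
    VanishExcluded α A lam phi ε ∨
    ((∀ M : ℕ, 0 < M → (∀ j l, ∃ z : ℤ, (M : ℚ) * lam'' j l = z) →
        (∀ l, ∃ z : ℤ, (M : ℚ) * phi'' l = z) → ∀ a : ℤ, IsCoprime a (M : ℤ) →
        SemistableWeights ℂ (fun j l => (a : ℝ) * lam'' j l) (fun l => (a : ℝ) * phi'' l)) ∧
      ∀ z₁ z₂ : Option (Fin n), z₁ ≠ z₂ →
        (∀ x, x ≠ z₁ → x ≠ z₂ → ∀ l l', DenIn S (expo lam phi x l - expo lam phi x l')) →
        ∀ (κ : Option (Fin n) → Fin r) (t : ℚ),
          (univ.filter fun l => (expo lam'' phi'' z₁ l - t).den = 1).card =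
          (univ.filter fun l => (expo lam'' phi'' z₂ l + t +
            ∑ x ∈ (univ.erase z₁).erase z₂, expo lam'' phi'' x (κ x)).den = 1).card) := by
  classical
  obtain ⟨ε, hε, hor⟩ := sys_or.{u} n r
  obtain ⟨B, 𝓛, -, hB⟩ := uniform_part n r
  refine ⟨ε, B, hε, ?_⟩
  intro R _ _ _ _ α A lam phi hα hlam hphi S hS lam' lam'' phi' phi'' hl hp il ip ol op
  rcases hor R α A lam phi hα hlam hphi with h | ⟨N, hN, hN1, hN2, hc⟩
  · exact Or.inl (h.vanish hε)
  right
  obtain ⟨hA, hT⟩ := hB lam phi N hN hN1 hN2 hc S hS lam' lam'' phi' phi'' hl hp il ip ol op
  refine ⟨fun M hM h1 h2 a ha => ?_, hT⟩
  obtain ⟨Λ, -, -, hΛ⟩ := hA a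
    (fun j l => IsCoprime.of_isCoprime_of_dvd_right ha (by
      exact_mod_cast (den_dvd_iff hM (lam'' j l)).1 (h1 j l)))
    (fun l => IsCoprime.of_isCoprime_of_dvd_right ha (by
      exact_mod_cast (den_dvd_iff hM (phi'' l)).1 (h2 l)))
  refine hΛ _ _ fun v _ => ⟨0, ?_⟩
  rw [Int.cast_zero]
  refine sum_eq_zero fun i _ => ?_
  rcases i with ⟨j, l⟩ | l
  · simp [vec]
  · simp [vec]

end Pool.Agent.Results.MP_815ef6_nt.LargePrimesRemoved
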