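import Pool.Agent.Run7.h700.PC.VanCan

set_option autoImplicit false

open Finset Polynomial Pool.Agent.W432.TC Pool.Agent.W432.PC
open Pool.Agent.Y227.SS Pool.Agent.R340.SY Pool.Agent.Run7.h700.PC

/-!
# Vanishing `p`-curvature: systems of any rank with large primes in the denominators of the exponent differences

Let `y' = A y`, `A = ∑ j, A j / (z - α j)`, be any Fuchsian system with simple poles, of any rank `r`
(reducible or not), with rational exponents, any number of singular points and arbitrary accessory
parameters, over a domain `R` of finite type over `ℤ`, and let `A_0 = 1`, `A_{m+1} = A_m' + A_m A`. Let `S` be a set of large prime numbers. An `S`-number is a rational number such that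
all prime factors of its denominator are in `S`. It is shown: if the differences of the exponents at all
singular points but one are `S`-numbers and some difference of the exponents at the last point is not an
`S`-number, then for all large primes `p` in a positive proportion of the residue classes modulo every common denominator of
the exponents some entry of `A_p` is not in `p R[z, 1 / F]`, for every nonzero polynomial `F`; so the
hypothesis of the question fails and its implication holds.
The primes in `S` are larger than an explicit bound which depends on the number `s` of the other
singular points and on the number `K` of the different differences at these points. The same holds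
if the differences at all the points are `S`-numbers, but not the sums of exponents, one for each point.

For a finite linear group of degree `r` all whose local monodromies but one have orders composed of
primes `> 2 r + 1`, up to scalars, the theorem of Feit and Thompson gives a normal abelian Hall
subgroup, which contains these local monodromies up to scalars and hence also the last one.

Proof. If the entries of `A_p` are in `p R[z, 1 / F]`, the `p`-curvature vanishes at all closed points of
characteristic `p` of an open set (starting results). If this happens too often, then the multiples of the exponents by all `a`
prime to their common denominator are the weights of semistable parabolic bundles of parabolic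
degree zero (a starting result), and the inequalities for line subbundles for suitable `a` and `-a`, found
with the pigeonhole principle, give a contradiction.
-/

namespace Pool.Agent.Results.MP_815ef6_nt.LargePrimesSeparate

universe u

/-- For every number `n` of finite singular points and every rank `r ≥ 1` there is an `ε > 0` with the
following property. Let `A = ∑ j, A j / (z - α j)` be a system of rank `r` over a domain
`R` of characteristic zero and of finite type over `ℤ`, with `α i - α j` invertible for `i ≠ j` and
with rational exponents `e x l = expo lam phi x l` at the `n + 1` points `x` (the eigenvalues `lam j l`
of `A j` at `some j`, that is `α j`, and the negatives of the eigenvalues `phi l` of `∑ j, A j` at `none`,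
that is infinity). Nothing is assumed on irreducibility or on the accessory parameters. Let `S`
be a set of primes, let `κ x` be an index for every point `x` and let `V` be a finite set of rational
numbers with denominators composed of primes in `S`. Let `Z` be a set of at most one point such that at
all the points `x` which are not in `Z` every difference `e x l - e x (κ x)` is an integer or congruent
to an element of `V` modulo the integers (`DiffIn`), let `s` be the number of the points outside `Z`
with a nonintegral difference, and let the primes in `S` be greater than `(12 s + 7) ^ (#V + 1)`.
Assume that some difference `e z l - e z l'`, `z ∈ Z`, has a denominator with a prime factor which is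
not in `S`; or that `Z` is empty and the denominator of the sum of the `e x (κ x)` over all points has a
prime factor which is not in `S`. Then `VanishExcluded`: for every common denominator `N` of the exponents there is a set of at least
`ε φ(N)` residue classes modulo `N` such that for every nonzero polynomial `F` in `R[z]` and all large primes
`p` in these classes some entry of `A_p` is not in `p R[z, 1 / F]`; and the `p`-curvature does not vanish for
almost all primes. -/
theorem result (n r : ℕ) (hr : 1 ≤ r) : ∃ ε : ℝ, 0 < ε ∧
    ∀ (R : Type u) [CommRing R] [IsDomain R] [CharZero R] [Algebra.FiniteType ℤ R]
    (α : Fin n → R) (A : Fin n → Matrix (Fin r) (Fin r) R)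
    (lam : Fin n → Fin r → ℚ) (phi : Fin r → ℚ),
    (∀ i j, i ≠ j → IsUnit (α i - α j)) →
    (∀ j, HasExponents (A j) (lam j)) → HasExponents (∑ j, A j) phi →
    ∀ (S : Set ℕ) (κ : Option (Fin n) → Fin r) (V : Finset ℚ), (∀ v ∈ V, DenIn S v) →
    ∀ Z : Finset (Option (Fin n)), Z.card ≤ 1 → (∀ x, x ∉ Z → DiffIn lam phi κ V x) →
    (∀ p ∈ S, (12 * (spread lam phi κ \ Z).card + 7) ^ (V.card + 1) < p) →
    ((∃ z ∈ Z, ∃ l l', ¬ DenIn S (expo lam phi z l - expo lam phi z l')) ∨
      (Z = ∅ ∧ ¬ DenIn S (∑ x, expo lam phi x (κ x)))) →
    VanishExcluded α A lam phi ε := by
  classical
  obtain ⟨ε, hε, hor⟩ := sys_or.{u} n r
  refine ⟨ε, hε, ?_⟩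
  intro R _ _ _ _ α A lam phi hα hlam hphi S κ V hV Z hZ hx hS hz
  rcases hor R α A lam phi hα hlam hphi with h | ⟨N, hN, hN1, hN2, hc⟩
  · exact h.vanish hε
  exfalso
  rcases hz with ⟨z, hzZ, l, l', hl⟩ | ⟨rfl, hz⟩
  · have hZz : Z = {z} := by
      refine (eq_singleton_iff_unique_mem.2 ⟨hzZ, fun y hy => ?_⟩)
      exact card_le_one.1 hZ y hy z hzZ
    subst hZz
    refine hl (abs_one hN (expo_den hN1 hN2) hc S z κ V hV (fun x hxz => hx x (by
      simpa using hxz)) ?_ l l')
    rwa [sdiff_singleton_eq_erase] at hS
  · refine hz (abs_sum hN (expo_den hN1 hN2) hr hc S κ V hV (fun x => hx x (by simp)) ?_)
    rwa [sdiff_empty] at hS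

end Pool.Agent.Results.MP_815ef6_nt.LargePrimesSeparate
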